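import Pool.Agent.H69.Ends1

namespace Pool.Agent.Results.MP_3ac48a_al.EndsHomeo
open Pool.Agent.H69.EndSp

/-- With `G₁ = ℤ^{*ℕ}` and `G₂ = (ℤ²)^{*ℕ}`: some bijection `G₁ → G₂` matches the left
commensurated subsets, and the spaces of ends are homeomorphic. -/
theorem result :
    (∃ f : Monoid.CoprodI (fun _ : ℕ => Multiplicative ℤ) ≃
        Monoid.CoprodI (fun _ : ℕ => Multiplicative (ℤ × ℤ)),
      ∀ A : Set (Monoid.CoprodI (fun _ : ℕ => Multiplicative ℤ)),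
        A ∈ Comm (Monoid.CoprodI (fun _ : ℕ => Multiplicative ℤ)) ↔
          f '' A ∈ Comm (Monoid.CoprodI (fun _ : ℕ => Multiplicative (ℤ × ℤ)))) ∧
    Nonempty (Ends (Monoid.CoprodI (fun _ : ℕ => Multiplicative ℤ)) ≃ₜ
      Ends (Monoid.CoprodI (fun _ : ℕ => Multiplicative (ℤ × ℤ)))) := by
  obtain ⟨f, hf⟩ := main
  refine ⟨⟨f, fun A => ?_⟩, ends_homeo f hf⟩
  rw [hf, Set.preimage_image_eq _ f.injective]

end Pool.Agent.Results.MP_3ac48a_al.EndsHomeo
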